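import Mathlib
import Pool.Agent.H248R5.Bert

set_option autoImplicit false

/-!
# Partial derivatives with respect to algebraically independent elements
-/

namespace Pool.Agent.H248R6

open MvPolynomial Pool.Agent.H248R5

/-- Partial derivatives with respect to the members of an algebraically independent family. -/
theorem exists_der {L : Type*} [Field L] [CharZero L] {ι : Type*} (x : ι → L)
    (hx : AlgebraicIndependent ℚ x) (i : ι) :
    ∃ D : Derivation ℚ L L, ∀ j, (i = j → D (x j) = 1) ∧ (i ≠ j → D (x j) = 0) := by
  classical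
  obtain ⟨s, hs, hs2⟩ := exists_isTranscendenceBasis_superset (R := ℚ) hx.coe_range
  let A := MvPolynomial s ℚ
  let f0 : A →ₐ[ℚ] L := aeval (Subtype.val : s → L)
  have hf0 : Function.Injective f0 := hs2.1
  let _ : Algebra A L := f0.toRingHom.toAlgebra
  have hmap : ∀ a : A, algebraMap A L a = f0 a := fun a => rfl
  have : IsScalarTower ℚ A L := IsScalarTower.of_algebraMap_eq' (RingHom.ext_rat _ _)
  have : FaithfulSMul A L := (faithfulSMul_iff_algebraMap_injective A L).2 hf0
  let e := hs2.1.aevalEquiv
  have halg0 := hs2.isAlgebraic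
  have halg : Algebra.IsAlgebraic A L := by
    refine Algebra.IsAlgebraic.of_ringHom_of_comp_eq (S := Algebra.adjoin ℚ
      (Set.range (Subtype.val : s → L))) (B := L) (e : A ≃+* _).toRingHom (RingHom.id L)
      e.surjective Function.injective_id ?_
    refine MvPolynomial.ringHom_ext (fun c => ?_) fun a => ?_
    · exact RingHom.congr_fun (RingHom.ext_rat ((RingHom.comp (algebraMap (Algebra.adjoin ℚ
        (Set.range (Subtype.val : s → L))) L) (e : A ≃+* _).toRingHom).comp
          (C : ℚ →+* MvPolynomial s ℚ))
        ((RingHom.comp (RingHom.id L) (algebraMap A L)).comp (C : ℚ →+* MvPolynomial s ℚ))) c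
    · change ((e (X a) : Algebra.adjoin ℚ (Set.range (Subtype.val : s → L))) : L) = f0 (X a)
      rw [hs2.1.aevalEquiv_apply_coe]
  let _ : Algebra (FractionRing A) L := FractionRing.liftAlgebra A L
  have : IsScalarTower A (FractionRing A) L := FractionRing.isScalarTower_liftAlgebra A L
  have : Algebra.IsAlgebraic (FractionRing A) L :=
    (IsFractionRing.comap_isAlgebraic_iff (A := A) (K := FractionRing A) (C := L)).1 halg
  have : Algebra.FormallyEtale (FractionRing A) L := Algebra.FormallyEtale.of_isSeparable _ _
  have : Algebra.FormallyEtale A (FractionRing A) :=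
    Algebra.FormallyEtale.of_isLocalization (nonZeroDivisors A)
  have : Algebra.FormallyEtale A L := Algebra.FormallyEtale.comp A (FractionRing A) L
  have hxi : x i ∈ s := hs ⟨i, rfl⟩
  obtain ⟨D, hD⟩ := exists_derivation (K := ℚ) (A := A) (L := L) (pderiv ⟨x i, hxi⟩)
  refine ⟨D, fun j => ?_⟩
  have hxj : x j ∈ s := hs ⟨j, rfl⟩
  have h1 : algebraMap A L (X ⟨x j, hxj⟩) = x j := by
    rw [hmap]
    exact aeval_X _ _
  have h2 := hD (X ⟨x j, hxj⟩)
  rw [h1, pderiv_X] at h2
  constructor
  · rintro rfl
    rw [h2, Pi.single_eq_same, map_one]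
  · intro hij
    rw [h2, Pi.single_eq_of_ne, map_zero]
    intro h3
    have h4 : x j = x i := congrArg Subtype.val h3
    exact hij (hx.injective h4).symm

end Pool.Agent.H248R6
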