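import Mathlib
import Pool.Agent.H248R5.Bert

set_option autoImplicit false

/-!
# Elimination: from the generic member to the general member
-/

namespace Pool.Agent.H248R6

open MvPolynomial Pool.Agent.H248R5

theorem elim_aux {K : Type} [Field K] [CharZero K] {σ : Type} [Fintype σ] {N : ℕ}
    (b : Fin N → MvPolynomial σ K) (h : MvPolynomial σ K)
    (H : ∀ (L : Type) [Field L] [Algebra K L] (t : Fin N → L) (D : Fin N → Derivation K L L),
      (∀ i j, D i (t j) = if i = j then 1 else 0) → ∀ q : σ → L,
      ∑ i, t i * aeval q (b i) = 0 → (∀ a, ∑ i, t i * aeval q (pderiv a (b i)) = 0) →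
      aeval q h = 0) :
    ∃ s : MvPolynomial (Fin N) K, s ≠ 0 ∧
      (C s : MvPolynomial (Option σ) (MvPolynomial (Fin N) K)) ∈
        Ideal.span (Set.range (fun o : Option (Option σ) => match o with
          | none => (1 - X none * aeval (fun a => X (some a)) h :
              MvPolynomial (Option σ) (MvPolynomial (Fin N) K))
          | some none => ∑ i, C (X i) * aeval (fun a => X (some a)) (b i)
          | some (some a) => ∑ i, C (X i) * aeval (fun a => X (some a)) (pderiv a (b i)))) := by
  classical
  set J := Ideal.span (Set.range (fun o : Option (Option σ) => match o with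
          | none => (1 - X none * aeval (fun a => X (some a)) h :
              MvPolynomial (Option σ) (MvPolynomial (Fin N) K))
          | some none => ∑ i, C (X i) * aeval (fun a => X (some a)) (b i)
          | some (some a) => ∑ i, C (X i) * aeval (fun a => X (some a)) (pderiv a (b i)))) with hJ
  by_contra hcon
  push Not at hcon
  let A := MvPolynomial (Fin N) K
  let F := FractionRing A
  let B := MvPolynomial (Option σ) A
  let BF := MvPolynomial (Option σ) F
  have hdis : Disjoint (((nonZeroDivisors A).map (C (σ := Option σ)) : Submonoid B) : Set B)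
      (J : Set B) := by
    rw [Set.disjoint_left]
    rintro _ ⟨s, hs, rfl⟩ hsJ
    exact hcon s (nonZeroDivisors.ne_zero hs) hsJ
  let _ : Algebra B BF := MvPolynomial.algebraMvPolynomial
  have hmap : ∀ x : B, algebraMap B BF x = MvPolynomial.map (algebraMap A F) x := fun x => by
    rw [MvPolynomial.algebraMap_def]
  have hne : J.map (algebraMap B BF) ≠ ⊤ :=
    (IsLocalization.map_algebraMap_ne_top_iff_disjoint
      ((nonZeroDivisors A).map (C (σ := Option σ))) BF J).2 hdis
  obtain ⟨m, hm, hJm⟩ := Ideal.exists_le_maximal _ hne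
  let _ : Field (BF ⧸ m) := Ideal.Quotient.field m
  have : Algebra.FiniteType F (BF ⧸ m) :=
    Algebra.FiniteType.of_surjective (Ideal.Quotient.mkₐ F m) Ideal.Quotient.mk_surjective
  have : Module.Finite F (BF ⧸ m) := finite_of_finite_type_of_isJacobsonRing F (BF ⧸ m)
  have : Algebra.FormallyEtale F (BF ⧸ m) := Algebra.FormallyEtale.of_isSeparable F (BF ⧸ m)
  have : Algebra.FormallyEtale A F :=
    Algebra.FormallyEtale.of_isLocalization (nonZeroDivisors A)
  have : Algebra.FormallyEtale A (BF ⧸ m) := Algebra.FormallyEtale.comp A F (BF ⧸ m)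
  have hex : ∀ i : Fin N, ∃ D' : Derivation K (BF ⧸ m) (BF ⧸ m),
      ∀ a : A, D' (algebraMap A (BF ⧸ m) a) = algebraMap A (BF ⧸ m) (pderiv i a) :=
    fun i => exists_derivation (pderiv i)
  choose D hD using hex
  let q : σ → BF ⧸ m := fun a => Ideal.Quotient.mk m (X (some a))
  let t : Fin N → BF ⧸ m := fun i => algebraMap A (BF ⧸ m) (X i)
  -- the ring homomorphism from the generic polynomial ring
  let ψ : B →+* BF ⧸ m := (Ideal.Quotient.mk m).comp (algebraMap B BF)
  have hψ0 : ∀ x ∈ J, ψ x = 0 := by
    intro x hx
    refine Ideal.Quotient.eq_zero_iff_mem.2 (hJm ?_)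
    exact Ideal.mem_map_of_mem _ hx
  have hψX : ∀ a, ψ (X (some a)) = q a := by
    intro a
    change Ideal.Quotient.mk m (algebraMap B BF (X (some a))) = _
    rw [hmap, map_X]
  have hψC : ∀ a : A, ψ (C a) = algebraMap A (BF ⧸ m) a := by
    intro a
    change Ideal.Quotient.mk m (algebraMap B BF (C a)) = _
    rw [hmap, map_C]
    rfl
  have hψa : ∀ p : MvPolynomial σ K, ψ (aeval (fun a => X (some a)) p) = aeval q p := by
    intro p
    induction p using MvPolynomial.induction_on with
    | C c =>
      rw [algHom_C, algHom_C]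
      have : (algebraMap K B c) = C (C c) := rfl
      rw [this, hψC]
      have h2 : (C c : A) = algebraMap K A c := rfl
      rw [h2, ← IsScalarTower.algebraMap_apply]
    | add p q hp hq => simp only [map_add, hp, hq]
    | mul_X p i hp => simp only [map_mul, hp, aeval_X, hψX]
  have k1 : ∑ i, t i * aeval q (b i) = 0 := by
    have h := hψ0 _ (Ideal.subset_span ⟨some none, rfl⟩)
    simp only [map_sum, map_mul, hψa, hψC] at h
    exact h
  have k2 : ∀ a, ∑ i, t i * aeval q (pderiv a (b i)) = 0 := by
    intro a
    have h := hψ0 _ (Ideal.subset_span ⟨some (some a), rfl⟩)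
    simp only [map_sum, map_mul, hψa, hψC] at h
    exact h
  have k3 : aeval q h = 0 := by
    refine H (BF ⧸ m) t D (fun i l => ?_) q k1 k2
    change D i (algebraMap A (BF ⧸ m) (X l)) = _
    rw [hD, pderiv_X]
    by_cases hil : i = l
    · subst hil
      rw [Pi.single_eq_same, if_pos rfl, map_one]
    · rw [Pi.single_eq_of_ne (Ne.symm hil), if_neg hil, map_zero]
  have h := hψ0 _ (Ideal.subset_span ⟨none, rfl⟩)
  simp only [map_sub, map_one, map_mul, hψa, k3, mul_zero, sub_zero] at h
  exact one_ne_zero h

/-- If `h` vanishes at every singular point of the generic member, then `h` vanishes at every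
singular point of the general member. -/
theorem elim {K : Type} [Field K] [CharZero K] {σ : Type} [Fintype σ] {N : ℕ}
    (b : Fin N → MvPolynomial σ K) (h : MvPolynomial σ K)
    (H : ∀ (L : Type) [Field L] [Algebra K L] (t : Fin N → L) (D : Fin N → Derivation K L L),
      (∀ i j, D i (t j) = if i = j then 1 else 0) → ∀ q : σ → L,
      ∑ i, t i * aeval q (b i) = 0 → (∀ a, ∑ i, t i * aeval q (pderiv a (b i)) = 0) →
      aeval q h = 0) :
    ∃ Φ : MvPolynomial (Fin N) K, Φ ≠ 0 ∧ ∀ t : Fin N → K, eval t Φ ≠ 0 → ∀ Q : σ → K,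
      eval Q (∑ i, t i • b i) = 0 → (∀ a, eval Q (pderiv a (∑ i, t i • b i)) = 0) →
        eval Q h = 0 := by
  classical
  obtain ⟨s, hs0, hs⟩ := elim_aux b h H
  refine ⟨s, hs0, fun t ht Q h1 h2 => ?_⟩
  by_contra hj
  let z : Option σ → K := fun o => match o with
    | none => (eval Q h)⁻¹
    | some a => Q a
  let ψ : MvPolynomial (Option σ) (MvPolynomial (Fin N) K) →+* K := eval₂Hom (eval t) z
  have hψ : ∀ p : MvPolynomial σ K, ψ (aeval (fun a => X (some a)) p) = eval Q p := by
    intro p
    induction p using MvPolynomial.induction_on with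
    | C c =>
      rw [algHom_C]
      have : (algebraMap K (MvPolynomial (Option σ) (MvPolynomial (Fin N) K)) c) = C (C c) := rfl
      rw [this]
      simp [ψ]
    | add p q hp hq => simp only [map_add, hp, hq]
    | mul_X p i hp => simp [map_mul, hp, aeval_X, ψ, z]
  have hker : Ideal.span (Set.range (fun o : Option (Option σ) => match o with
          | none => (1 - X none * aeval (fun a => X (some a)) h :
              MvPolynomial (Option σ) (MvPolynomial (Fin N) K))
          | some none => ∑ i, C (X i) * aeval (fun a => X (some a)) (b i)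
          | some (some a) => ∑ i, C (X i) * aeval (fun a => X (some a)) (pderiv a (b i))))
        ≤ RingHom.ker ψ := by
    rw [Ideal.span_le]
    rintro _ ⟨o, rfl⟩
    rcases o with _ | _ | a
    · change ψ (1 - X none * aeval (fun a => X (some a)) h) = 0
      rw [map_sub, map_one, map_mul, hψ]
      have : ψ (X none) = (eval Q h)⁻¹ := by simp [ψ, z]
      rw [this, inv_mul_cancel₀ hj, sub_self]
    · change ψ (∑ i, C (X i) * aeval (fun a => X (some a)) (b i)) = 0
      rw [map_sum] at h1 ⊢
      rw [← h1]
      refine Finset.sum_congr rfl fun i _ => ?_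
      rw [map_mul, hψ, smul_eval]
      simp [ψ]
    · change ψ (∑ i, C (X i) * aeval (fun a => X (some a)) (pderiv a (b i))) = 0
      have h3 := h2 a
      rw [map_sum, map_sum] at h3
      rw [map_sum, ← h3]
      refine Finset.sum_congr rfl fun i _ => ?_
      rw [map_mul, hψ, Derivation.map_smul, smul_eval]
      simp [ψ]
  have h4 : ψ (C s) = 0 := hker hs
  apply ht
  simpa [ψ] using h4

end Pool.Agent.H248R6
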