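import Mathlib
import Pool.Agent.H248R5.Bert

set_option autoImplicit false

/-!
# The differentials at a singular point of the generic member have rank at most one
-/

namespace Pool.Agent.H248R6

open MvPolynomial Pool.Agent.H248R5

theorem rank_one {K L : Type*} [Field K] [Field L] [Algebra K L] {N : ℕ}
    (b : Fin N → MvPolynomial (Fin 3) K) {d : ℕ} (hb : ∀ i, (b i).IsHomogeneous d)
    (t : Fin N → L) (D : Fin N → Derivation K L L)
    (hD : ∀ i j, D i (t j) = if i = j then 1 else 0) (q : Fin 3 → L) (hq : q ≠ 0)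
    (h2 : ∀ a, ∑ i, t i * aeval q (pderiv a (b i)) = 0) (hbq : ∀ j, aeval q (b j) = 0) :
    ∃ η : Fin 3 → L, ∀ j, ∃ θ : L, ∀ a, aeval q (pderiv a (b j)) = θ * η a := by
  classical
  have E0 : ∀ i, ∑ c, q c * aeval q (pderiv c (b i)) = 0 := by
    intro i
    have h := congrArg (aeval q) (hb i).sum_X_mul_pderiv
    rw [map_sum, map_nsmul, hbq i, smul_zero] at h
    rw [← h]
    exact Finset.sum_congr rfl fun c _ => by rw [map_mul, aeval_X]
  have E1 : ∀ i j, ∑ c, aeval q (pderiv c (b i)) * D j (q c) = 0 := by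
    intro i j
    rw [← derivation_aeval, hbq i, map_zero]
  by_cases hB : ∃ j, ∃ a c : Fin 3, q a * D j (q c) - q c * D j (q a) ≠ 0
  · obtain ⟨j, a0, c0, hac⟩ := hB
    let ξ : Fin 3 → L := fun c => D j (q c)
    let η : Fin 3 → L := ![q 1 * ξ 2 - q 2 * ξ 1, q 2 * ξ 0 - q 0 * ξ 2, q 0 * ξ 1 - q 1 * ξ 0]
    have hη : ∃ c, η c ≠ 0 := by
      by_contra hcon
      push Not at hcon
      have k0 : q 1 * ξ 2 - q 2 * ξ 1 = 0 := hcon 0
      have k1 : q 2 * ξ 0 - q 0 * ξ 2 = 0 := hcon 1
      have k2 : q 0 * ξ 1 - q 1 * ξ 0 = 0 := hcon 2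
      apply hac
      change q a0 * ξ c0 - q c0 * ξ a0 = 0
      fin_cases a0 <;> fin_cases c0 <;> simp only [Fin.zero_eta, Fin.mk_one, Fin.reduceFinMk,
        Fin.isValue]
      · ring
      · exact k2
      · linear_combination -k1
      · linear_combination -k2
      · ring
      · exact k0
      · exact k1
      · linear_combination -k0
      · ring
    obtain ⟨c, hc⟩ := hη
    refine ⟨η, fun i => ⟨aeval q (pderiv c (b i)) / η c, fun a => ?_⟩⟩
    set y : Fin 3 → L := fun a => aeval q (pderiv a (b i)) with hy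
    have e0 : q 0 * y 0 + q 1 * y 1 + q 2 * y 2 = 0 := by
      have := E0 i
      rwa [Fin.sum_univ_three] at this
    have e1 : y 0 * ξ 0 + y 1 * ξ 1 + y 2 * ξ 2 = 0 := by
      have := E1 i j
      rwa [Fin.sum_univ_three] at this
    have h01 : y 0 * (q 2 * ξ 0 - q 0 * ξ 2) = y 1 * (q 1 * ξ 2 - q 2 * ξ 1) := by
      linear_combination q 2 * e1 - ξ 2 * e0
    have h02 : y 0 * (q 0 * ξ 1 - q 1 * ξ 0) = y 2 * (q 1 * ξ 2 - q 2 * ξ 1) := by
      linear_combination ξ 1 * e0 - q 1 * e1
    have h12 : y 1 * (q 0 * ξ 1 - q 1 * ξ 0) = y 2 * (q 2 * ξ 0 - q 0 * ξ 2) := by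
      linear_combination q 0 * e1 - ξ 0 * e0
    have hη0 : η 0 = q 1 * ξ 2 - q 2 * ξ 1 := rfl
    have hη1 : η 1 = q 2 * ξ 0 - q 0 * ξ 2 := rfl
    have hη2 : η 2 = q 0 * ξ 1 - q 1 * ξ 0 := rfl
    rw [← hη0, ← hη1] at h01
    rw [← hη0, ← hη2] at h02
    rw [← hη1, ← hη2] at h12
    have hall : ∀ a c : Fin 3, y a * η c = y c * η a := by
      intro a c
      fin_cases a <;> fin_cases c <;> simp only [Fin.zero_eta, Fin.mk_one, Fin.reduceFinMk,
        Fin.isValue]
      · exact h01
      · exact h02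
      · exact h01.symm
      · exact h12
      · exact h02.symm
      · exact h12.symm
    rw [div_mul_eq_mul_div, eq_div_iff hc]
    exact hall a c
  · push Not at hB
    refine ⟨0, fun j => ⟨0, fun a => ?_⟩⟩
    obtain ⟨c0, hc0⟩ : ∃ c, q c ≠ 0 := by
      by_contra hcon
      push Not at hcon
      exact hq (funext hcon)
    set lam := D j (q c0) / q c0 with hlam
    have hξ : ∀ c, D j (q c) = lam * q c := by
      intro c
      have h := hB j c0 c
      rw [hlam, div_mul_eq_mul_div, eq_div_iff hc0]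
      linear_combination h
    have h3 : D j (∑ i, t i * aeval q (pderiv a (b i))) = 0 := by rw [h2 a, map_zero]
    rw [map_sum] at h3
    have h4 : ∀ i, D j (t i * aeval q (pderiv a (b i))) =
        t i * (lam * ((d - 1 : ℕ) * aeval q (pderiv a (b i)))) +
          if j = i then aeval q (pderiv a (b i)) else 0 := by
      intro i
      rw [Derivation.leibniz, hD, derivation_aeval, smul_eq_mul, smul_eq_mul]
      have h5 : ∑ c, aeval q (pderiv c (pderiv a (b i))) * D j (q c) =
          lam * ((d - 1 : ℕ) * aeval q (pderiv a (b i))) := by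
        have h6 := congrArg (aeval q) ((hb i).pderiv (i := a)).sum_X_mul_pderiv
        rw [map_sum, map_nsmul, nsmul_eq_mul] at h6
        rw [← h6, Finset.mul_sum]
        refine Finset.sum_congr rfl fun c _ => ?_
        rw [map_mul, aeval_X, hξ c]
        ring
      rw [h5]
      congr 1
      split_ifs <;> simp
    rw [Finset.sum_congr rfl fun i _ => h4 i, Finset.sum_add_distrib, Finset.sum_ite_eq] at h3
    have h7 : ∑ i, t i * (lam * ((d - 1 : ℕ) * aeval q (pderiv a (b i)))) =
        lam * ((d - 1 : ℕ) : L) * ∑ i, t i * aeval q (pderiv a (b i)) := by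
      rw [Finset.mul_sum]
      exact Finset.sum_congr rfl fun i _ => by ring
    rw [h7, h2 a, mul_zero, zero_add] at h3
    simpa using h3

/-- Linear independence after extension of the base field. -/
theorem li_map {K L : Type*} [Field K] [Field L] [Algebra K L] {σ : Type*} {N : ℕ}
    (b : Fin N → MvPolynomial σ K) (hb : LinearIndependent K b) :
    LinearIndependent L (fun j => MvPolynomial.map (algebraMap K L) (b j)) := by
  rw [Fintype.linearIndependent_iff] at hb ⊢
  intro c hc j
  rw [← Module.forall_dual_apply_eq_zero_iff K]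
  intro φ
  refine hb (fun j => φ (c j)) ?_ j
  ext s
  have h := congrArg (fun p => φ (coeff s p)) hc
  simp only [coeff_sum, coeff_smul, coeff_map, coeff_zero, map_zero, map_sum, smul_eq_mul] at h
  rw [coeff_sum, coeff_zero, ← h]
  refine Finset.sum_congr rfl fun i _ => ?_
  rw [coeff_smul, smul_eq_mul, mul_comm (c i), ← Algebra.smul_def, map_smul, smul_eq_mul,
    mul_comm]

end Pool.Agent.H248R6
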