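import Mathlib
import Pool.Agent.H248R5.Smooth

set_option autoImplicit false

/-!
# Derivations acting on the coefficients of polynomials
-/

namespace Pool.Agent.H248R6

open MvPolynomial Pool.Agent.H248R5

variable {L : Type*} [Field L] [CharZero L] {σ : Type*}

/-- A derivation acting on coefficients. -/
noncomputable def dG (D : Derivation ℚ L L) (p : MvPolynomial σ L) : MvPolynomial σ L :=
  ∑ s ∈ p.support, monomial s (D (coeff s p))

theorem coeff_dG (D : Derivation ℚ L L) (p : MvPolynomial σ L) (s : σ →₀ ℕ) :
    coeff s (dG D p) = D (coeff s p) := by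
  classical
  unfold dG
  rw [coeff_sum]
  simp only [coeff_monomial]
  rw [Finset.sum_ite_eq']
  split_ifs with h
  · rfl
  · rw [notMem_support_iff.1 h, map_zero]

theorem dG_add (D : Derivation ℚ L L) (p q : MvPolynomial σ L) :
    dG D (p + q) = dG D p + dG D q := by
  ext s
  simp only [coeff_dG, coeff_add, map_add]

theorem dG_mul (D : Derivation ℚ L L) (p q : MvPolynomial σ L) :
    dG D (p * q) = dG D p * q + p * dG D q := by
  classical
  ext s
  rw [coeff_dG, coeff_mul, coeff_add, coeff_mul, coeff_mul, map_sum, ← Finset.sum_add_distrib]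
  refine Finset.sum_congr rfl fun x _ => ?_
  rw [Derivation.leibniz, coeff_dG, coeff_dG, smul_eq_mul, smul_eq_mul]
  ring

theorem dG_C (D : Derivation ℚ L L) (c : L) : dG D (C c : MvPolynomial σ L) = C (D c) := by
  classical
  ext s
  rw [coeff_dG, coeff_C, coeff_C]
  split_ifs
  · rfl
  · exact map_zero D

theorem dG_X (D : Derivation ℚ L L) (i : σ) : dG D (X i : MvPolynomial σ L) = 0 := by
  classical
  ext s
  rw [coeff_dG, coeff_X, coeff_zero]
  split_ifs
  · exact D.map_one_eq_zero
  · exact map_zero D

/-- The chain rule. -/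
theorem der_eval [Fintype σ] (D : Derivation ℚ L L) (Q : σ → L) (p : MvPolynomial σ L) :
    D (eval Q p) = eval Q (dG D p) + ∑ a, eval Q (pderiv a p) * D (Q a) := by
  classical
  induction p using MvPolynomial.induction_on with
  | C c => simp [dG_C]
  | add p q hp hq =>
    simp only [map_add, hp, hq, dG_add, add_mul, Finset.sum_add_distrib]
    ring
  | mul_X p i hp =>
    rw [map_mul, Derivation.leibniz, hp, dG_mul, dG_X, mul_zero, add_zero, map_mul, eval_X,
      smul_eq_mul, smul_eq_mul]
    have h1 : ∀ a, eval Q (pderiv a (p * X i)) * D (Q a) =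
        Q i * (eval Q (pderiv a p) * D (Q a)) +
          (if i = a then eval Q p * D (Q a) else 0) := by
      intro a
      rw [Derivation.leibniz, pderiv_X, map_add, smul_eq_mul, smul_eq_mul, map_mul, map_mul,
        eval_X]
      by_cases h : i = a
      · subst h
        rw [Pi.single_eq_same, map_one, if_pos rfl]
        ring
      · rw [Pi.single_eq_of_ne h, map_zero, if_neg h]
        ring
    rw [Finset.sum_congr rfl fun a _ => h1 a, Finset.sum_add_distrib, ← Finset.mul_sum,
      Finset.sum_ite_eq]
    simp only [Finset.mem_univ, if_true]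
    ring

theorem dG_homog (D : Derivation ℚ L L) {p : MvPolynomial σ L} {d : ℕ} (h : p.IsHomogeneous d) :
    (dG D p).IsHomogeneous d := by
  intro s hs
  rw [coeff_dG] at hs
  refine h (fun h0 => hs ?_)
  rw [h0, map_zero]

theorem tau_dG (D : Derivation ℚ L L) (p : Fin 2 → L) (G : MvPolynomial (Fin 3) L) :
    tau p (dG D G) = dG D (tau p G) - ∑ b, C (D (p b)) * pderiv b (tau p G) := by
  classical
  induction G using MvPolynomial.induction_on with
  | C c => rw [dG_C, tau_C, tau_C, dG_C]; simp
  | add G H hG hH =>
    simp only [dG_add, map_add, hG, hH, mul_add, Finset.sum_add_distrib]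
    ring
  | mul_X G i hG =>
    have key : dG D (tau p (X i)) = ∑ b, C (D (p b)) * pderiv b (tau p (X i)) := by
      rw [Fin.sum_univ_two]
      fin_cases i
      · change dG D (tau p (X 0)) = C (D (p 0)) * pderiv 0 (tau p (X 0)) +
          C (D (p 1)) * pderiv 1 (tau p (X 0))
        rw [tau_X0, dG_add, dG_X, dG_C]
        simp [pderiv_X]
      · change dG D (tau p (X 1)) = C (D (p 0)) * pderiv 0 (tau p (X 1)) +
          C (D (p 1)) * pderiv 1 (tau p (X 1))
        rw [tau_X1, dG_add, dG_X, dG_C]
        simp [pderiv_X]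
      · change dG D (tau p (X 2)) = C (D (p 0)) * pderiv 0 (tau p (X 2)) +
          C (D (p 1)) * pderiv 1 (tau p (X 2))
        rw [tau_X2]
        have : (1 : MvPolynomial (Fin 2) L) = C 1 := C_1.symm
        rw [this, dG_C, D.map_one_eq_zero]
        simp
    rw [dG_mul, dG_X, mul_zero, add_zero, map_mul, map_mul, hG, dG_mul, key]
    simp only [Derivation.leibniz, smul_eq_mul, Fin.sum_univ_two]
    ring

theorem hc_dG (D : Derivation ℚ L L) (f : MvPolynomial σ L) (k : ℕ) :
    homogeneousComponent k (dG D f) = dG D (homogeneousComponent k f) := by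
  ext s
  rw [coeff_homogeneousComponent, coeff_dG, coeff_dG, coeff_homogeneousComponent]
  split_ifs
  · rfl
  · rw [map_zero]

theorem dG_zero (D : Derivation ℚ L L) : dG D (0 : MvPolynomial σ L) = 0 := by
  ext s
  rw [coeff_dG, coeff_zero, map_zero]

theorem hc_pderiv (f : MvPolynomial σ L) (b : σ) (k : ℕ) :
    homogeneousComponent k (pderiv b f) = pderiv b (homogeneousComponent (k + 1) f) := by
  classical
  ext s
  rw [coeff_homogeneousComponent, coeff_pderiv, coeff_pderiv, coeff_homogeneousComponent]
  have h : (s + Finsupp.single b 1).degree = s.degree + 1 := by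
    rw [map_add, Finsupp.degree_single]
  rw [h]
  by_cases hs : s.degree = k
  · rw [if_pos hs, if_pos (by omega)]
  · rw [if_neg hs, if_neg (by omega), zero_mul]

end Pool.Agent.H248R6
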