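import Mathlib
import Pool.Agent.H248R6.Move

set_option autoImplicit false
set_option linter.unusedSectionVars false

/-!
# A singular point of the general member is a base point of larger systems
-/

namespace Pool.Agent.H248R6

open MvPolynomial Pool.Agent.H248R5

variable {L : Type*} [Field L] [CharZero L]

/-- If all members of the system with multiplicities `w` have rank at most one at `Q`, then the
system with one multiplicity lowered by one vanishes at `Q`. -/
theorem step3 {n : ℕ} {w : Fin n → ℕ} {P : Fin n → Fin 2 → L} {d : ℕ} {k : Fin n} {m : ℕ}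
    (hk : w k = m + 1)
    (hlift : ∀ h : MvPolynomial (Fin 2) L, h.IsHomogeneous (m + 1) →
      ∃ G ∈ forms w P d, homogeneousComponent (m + 1) (tau (P k) G) = h)
    (D : Fin 2 → Derivation ℚ L L)
    (hD : ∀ a i b, D a (P i b) = if i = k ∧ b = a then 1 else 0) (Q : Fin 3 → L)
    (h0 : ∀ G ∈ forms w P d, eval Q G = 0) (η : Fin 3 → L)
    (h1 : ∀ G ∈ forms w P d, ∃ θ : L, ∀ c, eval Q (pderiv c G) = θ * η c) :
    ∀ H ∈ forms (Function.update w k m) P d, eval Q H = 0 := by
  classical
  let c : Fin 2 → L := fun a => - ∑ b, η b * D a (Q b)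
  have key : ∀ G ∈ forms w P d, ∃ θ : L, ∀ a, eval Q (dG (D a) G) = c a * θ := by
    intro G hG
    obtain ⟨θ, hθ⟩ := h1 G hG
    refine ⟨θ, fun a => ?_⟩
    have h2 := der_eval (D a) Q G
    rw [h0 G hG, map_zero] at h2
    have h3 : ∑ b, eval Q (pderiv b G) * D a (Q b) = θ * ∑ b, η b * D a (Q b) := by
      rw [Finset.mul_sum]
      exact Finset.sum_congr rfl fun b _ => by rw [hθ b]; ring
    rw [h3] at h2
    simp only [c]
    linear_combination -h2
  have hex : ∀ i : ℕ, ∃ G ∈ forms w P d, i ≤ m + 1 →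
      homogeneousComponent (m + 1) (tau (P k) G) = X 0 ^ i * X 1 ^ (m + 1 - i) := by
    intro i
    by_cases hi : i ≤ m + 1
    · obtain ⟨G, hG, hG'⟩ := hlift (X 0 ^ i * X 1 ^ (m + 1 - i)) (by
        have := mono_homog (L := L) i (m + 1 - i)
        rwa [Nat.add_sub_cancel' hi] at this)
      exact ⟨G, hG, fun _ => hG'⟩
    · exact ⟨0, Submodule.zero_mem _, fun h => absurd h hi⟩
  choose G hG hG' using hex
  choose θ hθ using fun i => key (G i) (hG i)
  let H : ℕ → MvPolynomial (Fin 3) L := fun i => (-((i : L) + 1)⁻¹) • dG (D 0) (G (i + 1))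
  have hHm : ∀ i, H i ∈ forms (Function.update w k m) P d := fun i =>
    Submodule.smul_mem _ _ (move hk (D 0) (hD 0) (hG (i + 1))).1
  have hne : ∀ i : ℕ, ((i : L) + 1) ≠ 0 := fun i => Nat.cast_add_one_ne_zero i
  have hHc : ∀ i, i ≤ m → homogeneousComponent m (tau (P k) (H i)) =
      X 0 ^ i * X 1 ^ (m - i) := by
    intro i hi
    have h2 := (move hk (D 0) (hD 0) (hG (i + 1))).2
    rw [hG' (i + 1) (by omega), pd0] at h2
    have h3 : m + 1 - (i + 1) = m - i := by omega
    rw [h3] at h2
    simp only [H]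
    rw [map_smul, map_smul, h2, smul_neg, ← C_mul', ← mul_assoc, ← C_mul]
    have h4 : (-((i : L) + 1)⁻¹) * ((i : L) + 1) = -1 := by
      rw [neg_mul, inv_mul_cancel₀ (hne i)]
    rw [h4, C_neg, C_1]
    ring
  -- the values
  let x : ℕ → L := fun i => eval Q (H i)
  have e0 : ∀ i : ℕ, ((i : L) + 1) * x i = - (c 0 * θ (i + 1)) := by
    intro i
    simp only [x, H]
    rw [smul_eval, hθ (i + 1) 0]
    have := hne i
    field_simp
  have e1 : ∀ i : ℕ, i ≤ m → c 1 * θ i + ((m + 1 - i : ℕ) : L) * x i = 0 := by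
    intro i hi
    have h2 := move hk (D 1) (hD 1) (hG i)
    obtain ⟨j, hj⟩ : ∃ j, m = i + j := ⟨m - i, by omega⟩
    have h3 : m + 1 - i = j + 1 := by omega
    have h4 : m - i = j := by omega
    have h5 : homogeneousComponent m (tau (P k) (dG (D 1) (G i) + ((j : L) + 1) • H i)) = 0 := by
      rw [map_add, map_add, map_smul, map_smul, h2.2, hG' i (by omega), hHc i hi, h3, pd1, h4,
        ← C_mul']
      ring
    have h6 := h0 _ (back hk (Submodule.add_mem _ h2.1 (Submodule.smul_mem _ _ (hHm i))) h5)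
    rw [map_add, smul_eval, hθ i 1] at h6
    rw [h3]
    push_cast
    exact h6
  have e2 : c 0 * θ 0 = 0 := by
    have h2 := move hk (D 0) (hD 0) (hG 0)
    rw [hG' 0 (by omega), pd00, neg_zero] at h2
    rw [← hθ 0 0]
    exact h0 _ (back hk h2.1 h2.2)
  have hx : ∀ i, i ≤ m → x i = 0 := by
    by_cases hc : c 0 = 0
    · intro i _
      have h2 := e0 i
      rw [hc, zero_mul, neg_zero] at h2
      exact (mul_eq_zero.1 h2).resolve_left (hne i)
    · have h3 : ∀ i, i ≤ m → θ i = 0 ∧ x i = 0 := by
        intro i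
        induction i with
        | zero =>
          intro _
          have h4 : θ 0 = 0 := (mul_eq_zero.1 e2).resolve_left hc
          have h5 := e1 0 (Nat.zero_le _)
          rw [h4, mul_zero, zero_add] at h5
          refine ⟨h4, (mul_eq_zero.1 h5).resolve_left ?_⟩
          exact Nat.cast_ne_zero.2 (by omega)
        | succ i ih =>
          intro hi
          have h4 := e0 i
          rw [(ih (by omega)).2, mul_zero] at h4
          have h6 : θ (i + 1) = 0 := by
            have h7 : c 0 * θ (i + 1) = 0 := by linear_combination h4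
            exact (mul_eq_zero.1 h7).resolve_left hc
          have h5 := e1 (i + 1) hi
          rw [h6, mul_zero, zero_add] at h5
          refine ⟨h6, (mul_eq_zero.1 h5).resolve_left ?_⟩
          exact Nat.cast_ne_zero.2 (by omega)
      exact fun i hi => (h3 i hi).2
  intro H0 hH0
  set h := homogeneousComponent m (tau (P k) H0) with hh
  have hhom : h.IsHomogeneous m := homogeneousComponent_isHomogeneous _ _
  have hsup : ∀ s ∈ h.support, s 0 + s 1 = m := by
    intro s hs
    have := hhom (mem_support_iff.1 hs)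
    rw [Finsupp.weight_apply, Finsupp.sum_fintype _ _ (fun i => by simp), Fin.sum_univ_two] at this
    simpa using this
  have hsum : homogeneousComponent m (tau (P k) (H0 - ∑ s ∈ h.support, coeff s h • H (s 0)))
      = 0 := by
    rw [map_sub, map_sub, map_sum, map_sum, ← hh, sub_eq_zero]
    conv_lhs => rw [h.as_sum]
    refine Finset.sum_congr rfl fun s hs => ?_
    have h2 := hsup s hs
    rw [map_smul, map_smul, hHc (s 0) (by omega), monomial_eq,
      Finsupp.prod_fintype _ _ (fun i => by simp), Fin.prod_univ_two, C_mul']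
    have h3 : m - s 0 = s 1 := by omega
    rw [h3]
  have h2 := h0 _ (back hk (Submodule.sub_mem _ hH0 (Submodule.sum_mem _ fun s _ =>
    Submodule.smul_mem _ _ (hHm (s 0)))) hsum)
  rw [map_sub, map_sum, sub_eq_zero] at h2
  rw [h2]
  refine Finset.sum_eq_zero fun s hs => ?_
  rw [smul_eval]
  have h3 : eval Q (H (s 0)) = 0 := hx (s 0) (by have := hsup s hs; omega)
  rw [h3, mul_zero]

/-- Lowering the multiplicities by one on a set of points. -/
def low {n : ℕ} (w : Fin n → ℕ) (S : Finset (Fin n)) : Fin n → ℕ :=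
  fun i => if i ∈ S then w i - 1 else w i

/-- The system lowered on a set of points vanishes at `Q` if the systems lowered at one of the
points do. -/
theorem step4 {n : ℕ} {w : Fin n → ℕ} {P : Fin n → Fin 2 → L} {d : ℕ} {S : Finset (Fin n)}
    (hsurj : Function.Surjective (ev w P d)) (Q : Fin 3 → L)
    (h0 : ∀ G ∈ forms w P d, eval Q G = 0)
    (h1 : ∀ k ∈ S, ∀ H ∈ forms (Function.update w k (w k - 1)) P d, eval Q H = 0) :
    ∀ G ∈ forms (low w S) P d, eval Q G = 0 := by
  classical
  intro G hG
  obtain ⟨hG1, hG2⟩ := mem_forms.1 hG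
  have hex : ∀ k, ∃ H : MvPolynomial (Fin 3) L, H.IsHomogeneous d ∧
      tau (P k) H - tau (P k) G ∈ (idealOfVars (Fin 2) L) ^ (w k) ∧
      ∀ i, i ≠ k → tau (P i) H ∈ (idealOfVars (Fin 2) L) ^ (w i) := by
    intro k
    obtain ⟨⟨H, hH⟩, hHy⟩ := hsurj (Function.update (0 : ∀ i, Quo L (w i)) k
      (Ideal.Quotient.mk ((idealOfVars (Fin 2) L) ^ (w k)) (tau (P k) G)))
    refine ⟨H, hH, ?_, fun i hi => ?_⟩
    · have h2 := congrFun hHy k
      rw [ev_apply, Function.update_self] at h2
      exact Ideal.Quotient.eq.1 h2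
    · have h2 := congrFun hHy i
      rw [ev_apply, Function.update_of_ne hi] at h2
      exact Ideal.Quotient.eq_zero_iff_mem.1 h2
  choose H hH1 hH2 hH3 using hex
  have h2 : ∀ k ∈ S, eval Q (H k) = 0 := by
    intro k hk
    refine h1 k hk _ (mem_forms.2 ⟨hH1 k, fun i => ?_⟩)
    by_cases hi : i = k
    · subst hi
      rw [Function.update_self]
      have h3 := hG2 i
      unfold low at h3
      rw [if_pos hk] at h3
      have h4 := Ideal.add_mem _ h3 (Ideal.pow_le_pow_right (Nat.sub_le (w i) 1) (hH2 i))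
      rwa [add_sub_cancel] at h4
    · rw [Function.update_of_ne hi]
      exact hH3 k i hi
  have h3 : eval Q (G - ∑ k ∈ S, H k) = 0 := by
    refine h0 _ (mem_forms.2 ⟨hG1.sub (Submodule.sum_mem (homogeneousSubmodule (Fin 3) L d)
      fun k _ => hH1 k), fun i => ?_⟩)
    rw [map_sub, map_sum]
    by_cases hi : i ∈ S
    · rw [← Finset.add_sum_erase _ _ hi]
      have h4 : tau (P i) G - (tau (P i) (H i) + ∑ x ∈ S.erase i, tau (P i) (H x)) =
          -(tau (P i) (H i) - tau (P i) G) - ∑ x ∈ S.erase i, tau (P i) (H x) := by ring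
      rw [h4]
      refine Ideal.sub_mem _ (Ideal.neg_mem_iff _ |>.2 (hH2 i)) (Ideal.sum_mem _ fun x hx => ?_)
      exact hH3 x i (Finset.ne_of_mem_erase hx).symm
    · refine Ideal.sub_mem _ ?_ (Ideal.sum_mem _ fun x hx => ?_)
      · have h5 := hG2 i
        unfold low at h5
        rwa [if_neg hi] at h5
      · exact hH3 x i (fun h => hi (h ▸ hx))
  rw [map_sub, map_sum, Finset.sum_eq_zero h2, sub_zero] at h3
  exact h3

end Pool.Agent.H248R6
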