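import Mathlib
import Pool.Agent.H248R6.Main
import Pool.Agent.H248R6.Spec

set_option autoImplicit false

/-!
# Assembling the smoothness of the general member
-/

namespace Pool.Agent.H248R6

open MvPolynomial Pool.Agent.H248R5

/-- It is enough to consider one basis. -/
theorem general_of_basis {K : Type*} [Field K] [Infinite K]
    {V : Submodule K (MvPolynomial (Fin 3) K)} {N : ℕ} (γ : Module.Basis (Fin N) K ↥V)
    {p : MvPolynomial (Fin 3) K → Prop}
    (h : ∃ Φ : MvPolynomial (Fin N) K, Φ ≠ 0 ∧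
      ∀ t : Fin N → K, eval t Φ ≠ 0 → p (∑ j, t j • (γ j : MvPolynomial (Fin 3) K))) :
    GeneralMember V p := by
  classical
  intro N' b
  obtain ⟨Φ, hΦ, hp⟩ := h
  let ℓ : Fin N → MvPolynomial (Fin N') K := fun i => ∑ j, C (γ.repr (b j) i) * X j
  have hev : ∀ t : Fin N' → K, eval t (aeval ℓ Φ) =
      eval (fun i => γ.repr (∑ j, t j • b j) i) Φ := by
    intro t
    have h1 : (eval t).comp ((aeval ℓ : MvPolynomial (Fin N) K →ₐ[K] MvPolynomial (Fin N') K) :
        MvPolynomial (Fin N) K →+* MvPolynomial (Fin N') K) =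
        eval (fun i => γ.repr (∑ j, t j • b j) i) := by
      refine MvPolynomial.ringHom_ext (fun c => ?_) fun i => ?_
      · simp
      · change eval t (aeval ℓ (X i)) = _
        rw [aeval_X, eval_X]
        simp only [ℓ, map_sum, map_mul, eval_C, eval_X, map_smul]
        rw [Finsupp.finsetSum_apply]
        exact Finset.sum_congr rfl fun j _ => by
          rw [Finsupp.smul_apply, smul_eq_mul, mul_comm]
    exact RingHom.congr_fun h1 Φ
  refine ⟨aeval ℓ Φ, fun h0 => hΦ ?_, fun t ht => ?_⟩
  · refine MvPolynomial.funext fun t => ?_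
    rw [map_zero]
    let v : ↥V := ∑ j, t j • γ j
    have h2 := hev (fun j => b.repr v j)
    rw [h0, map_zero, b.sum_repr] at h2
    have h3 : (fun i => γ.repr v i) = t := γ.repr_sum_self t
    rw [h3] at h2
    exact h2.symm
  · rw [hev] at ht
    have h4 := hp _ ht
    have h5 : ∑ j, γ.repr (∑ j, t j • b j) j • (γ j : MvPolynomial (Fin 3) K) =
        ∑ j, t j • (b j : MvPolynomial (Fin 3) K) := by
      have h6 := congrArg (Submodule.subtype V) (γ.sum_repr (∑ j, t j • b j))
      simp only [map_sum, map_smul, Submodule.subtype_apply] at h6 ⊢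
      exact h6
    rw [h5] at h4
    exact h4

theorem assemble {K : Type*} [Field K] [CharZero K] {n : ℕ} {w : Fin n → ℕ}
    {P : Fin n → Fin 2 → K} {e : ℕ}
    (hK : ∀ k, Function.Surjective (ev (Function.update w k (w k + 1)) P (e + 1)))
    (hnot : GeneralMember (forms w P (e + 1)) (fun G => ∀ Q : Fin 3 → K, Q ≠ 0 → eval Q G = 0 →
      (∀ a, eval Q (pderiv a G) = 0) → ∃ i, ∃ c : K, Q = c • (![P i 0, P i 1, 1] : Fin 3 → K))) :
    GeneralMember (forms w P (e + 1)) (SmoothMember w P) := by
  classical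
  intro N b
  obtain ⟨Φ0, hΦ0, h0⟩ := hnot N b
  have hb := fun i => bertini (fun j => homogeneousComponent (w i)
    (tau (P i) (b j : MvPolynomial (Fin 3) K)))
  choose Φ hΦ hΦ' using hb
  refine ⟨Φ0 * ∏ i, Φ i, mul_ne_zero hΦ0 (Finset.prod_ne_zero_iff.2 fun i _ => hΦ i),
    fun t ht => ?_⟩
  rw [map_mul, map_prod] at ht
  have hti : ∀ i, eval t (Φ i) ≠ 0 := fun i =>
    Finset.prod_ne_zero_iff.1 (right_ne_zero_of_mul ht) i (Finset.mem_univ i)
  have hnotP := h0 t (left_ne_zero_of_mul ht)
  set G := ∑ j, t j • (b j : MvPolynomial (Fin 3) K) with hG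
  have hGV : G ∈ forms w P (e + 1) := by
    rw [hG]
    exact Submodule.sum_mem _ fun j _ => Submodule.smul_mem _ _ (b j).2
  have hlead : ∀ i, ∀ v : Fin 2 → K, v ≠ 0 →
      eval v (homogeneousComponent (w i) (tau (P i) G)) = 0 →
      ∃ a, eval v (pderiv a (homogeneousComponent (w i) (tau (P i) G))) ≠ 0 := by
    intro i v hv hv1
    by_contra hcon
    push Not at hcon
    have hsum : homogeneousComponent (w i) (tau (P i) G) =
        ∑ j, t j • homogeneousComponent (w i) (tau (P i) (b j : MvPolynomial (Fin 3) K)) := by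
      rw [hG, map_sum, map_sum]
      refine Finset.sum_congr rfl fun j _ => ?_
      rw [map_smul, map_smul]
    rw [hsum] at hv1 hcon
    have h3 := hΦ' i t (hti i) v hv1 hcon
    obtain ⟨a, ha⟩ : ∃ a, v a ≠ 0 := by
      by_contra hcon2
      push Not at hcon2
      exact hv (funext hcon2)
    obtain ⟨H, hH, hH'⟩ := lift (L := K) (w := w) (P := P) (d := e + 1) (k := i) rfl (hK i)
      (h := X a ^ (w i)) (by
        have := (isHomogeneous_X K a).pow (w i)
        rwa [one_mul] at this)
    obtain ⟨c, hc⟩ := exists_comb b hH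
    have h4 : eval v (homogeneousComponent (w i) (tau (P i) H)) = 0 := by
      rw [hc, map_sum, map_sum, map_sum]
      refine Finset.sum_eq_zero fun j _ => ?_
      rw [map_smul, map_smul, smul_eval, h3 j, mul_zero]
    rw [hH', map_pow, eval_X] at h4
    exact pow_ne_zero _ ha h4
  refine ⟨fun Q hQ hQ1 hQ2 => ?_, fun i => ⟨?_, hlead i⟩⟩
  · obtain ⟨i, c, hc⟩ := hnotP Q hQ hQ1 hQ2
    refine ⟨i, Nat.pos_of_ne_zero fun hw0 => ?_, c, hc⟩
    have h5 := hlead i (fun _ => 1) (fun h => one_ne_zero (congrFun h 0))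
    rw [hw0] at h5
    have h6 : homogeneousComponent 0 (tau (P i) G) = C (eval ![P i 0, P i 1, 1] G) := by
      rw [homogeneousComponent_zero]
      congr 1
      exact constCoeff_tau (P i) G
    rw [h6] at h5
    have hc0 : c ≠ 0 := by
      rintro rfl
      rw [zero_smul] at hc
      exact hQ hc
    have h7 : eval (![P i 0, P i 1, 1] : Fin 3 → K) G = 0 := by
      have h9 : eval Q G = c ^ (e + 1) * eval (![P i 0, P i 1, 1] : Fin 3 → K) G := by
        rw [hc]
        have h10 := (mem_forms.1 hGV).1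
        rw [eval_eq, eval_eq, Finset.mul_sum]
        refine Finset.sum_congr rfl fun s hs => ?_
        have h11 : s 0 + s 1 + s 2 = e + 1 :=
          H932R2.sum_eq_of_homog h10 (mem_support_iff.1 hs)
        simp only [Pi.smul_apply, smul_eq_mul, mul_pow, Finset.prod_mul_distrib]
        have h12 : ∑ i ∈ s.support, s i = e + 1 := by
          rw [Finset.sum_subset (Finset.subset_univ s.support)
            (fun i _ hi => Finsupp.notMem_support_iff.1 hi), Fin.sum_univ_three, h11]
        rw [Finset.prod_pow_eq_pow_sum, h12]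
        ring
      rw [hQ1] at h9
      exact (mul_eq_zero.1 h9.symm).resolve_left (pow_ne_zero _ hc0)
    rw [h7, C_0, map_zero] at h5
    obtain ⟨a, ha⟩ := h5 rfl
    exact ha (by simp)
  · exact (mem_pow_idealOfVars_iff' _ _).1 ((mem_forms.1 hGV).2 i)

end Pool.Agent.H248R6
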