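import Mathlib
import Pool.Agent.H248R5.Smooth

set_option autoImplicit false

/-!
# Exact dimensions and monotonicity of independence
-/

namespace Pool.Agent.H248R6

open MvPolynomial Pool.Agent.H248R5

variable {K : Type*} [Field K]

theorem finrank_quo (w : ℕ) : Module.finrank K (Quo K w) = (w + 1).choose 2 := by
  classical
  refine le_antisymm (finrank_quo_le w) ?_
  have hfin : Module.Finite K (Quo K w) := quo_finite w
  let ex : (Σ k : Fin w, Fin ((k : ℕ) + 1)) → (Fin 2 →₀ ℕ) := fun x =>
    Finsupp.equivFunOnFinite.symm ![(x.2 : ℕ), (x.1 : ℕ) - x.2]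
  have hex : Function.Injective ex := by
    rintro ⟨⟨k, hk⟩, ⟨j, hj⟩⟩ ⟨⟨k', hk'⟩, ⟨j', hj'⟩⟩ h
    have h0 : j = j' := by
      have := DFunLike.congr_fun h 0
      simpa [ex] using this
    have h1 : k - j = k' - j' := by
      have := DFunLike.congr_fun h 1
      simpa [ex] using this
    simp only at hj hj'
    have hkk : k = k' := by omega
    subst hkk
    subst h0
    rfl
  have hdeg : ∀ x, (ex x).degree < w := by
    rintro ⟨⟨k, hk⟩, ⟨j, hj⟩⟩
    rw [Finsupp.degree_eq_sum, Fin.sum_univ_two]
    simp only [ex, Finsupp.coe_equivFunOnFinite_symm]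
    simp only [Matrix.cons_val_zero, Matrix.cons_val_one]
    simp only at hj
    omega
  have hli : LinearIndependent K (fun x : (Σ k : Fin w, Fin ((k : ℕ) + 1)) =>
      (Ideal.Quotient.mkₐ K ((idealOfVars (Fin 2) K) ^ w)) (monomial (ex x) (1 : K))) := by
    rw [Fintype.linearIndependent_iff]
    intro g hg x
    have h1 : (Ideal.Quotient.mkₐ K ((idealOfVars (Fin 2) K) ^ w))
        (∑ x, g x • monomial (ex x) (1 : K)) = 0 := by
      rw [map_sum, ← hg]
      exact Finset.sum_congr rfl fun y _ => map_smul _ _ _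
    have h2 : (∑ x, g x • monomial (ex x) (1 : K) : MvPolynomial (Fin 2) K) ∈
        (idealOfVars (Fin 2) K) ^ w := Ideal.Quotient.eq_zero_iff_mem.1 h1
    have h3 := (mem_pow_idealOfVars_iff' _ _).1 h2 (ex x) (hdeg x)
    rw [coeff_sum, Finset.sum_eq_single x] at h3
    · rwa [coeff_smul, coeff_monomial, if_pos rfl, smul_eq_mul, mul_one] at h3
    · intro y _ hy
      rw [coeff_smul, coeff_monomial, if_neg (fun h => hy (hex h)), smul_zero]
    · intro h
      exact absurd (Finset.mem_univ x) h
  have h3 := hli.fintype_card_le_finrank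
  rwa [card_tri] at h3

theorem finrank_homog (e : ℕ) :
    Module.finrank K ↥(homogeneousSubmodule (Fin 3) K e) = (e + 2).choose 2 := by
  classical
  refine le_antisymm ?_ (le_finrank_forms e)
  let ex : (Σ k : Fin (e + 1), Fin ((k : ℕ) + 1)) → (Fin 3 →₀ ℕ) := fun x =>
    Finsupp.equivFunOnFinite.symm ![(x.2 : ℕ), (x.1 : ℕ) - x.2, e - x.1]
  have hle : homogeneousSubmodule (Fin 3) K e ≤
      Submodule.span K (Set.range fun x => (monomial (ex x) (1 : K))) := by
    intro F hF
    rw [F.as_sum]
    refine Submodule.sum_mem _ fun s hs => ?_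
    have h1 : (monomial s (coeff s F) : MvPolynomial (Fin 3) K) =
        coeff s F • monomial s (1 : K) := by
      rw [smul_monomial, smul_eq_mul, mul_one]
    rw [h1]
    have h2 : s 0 + s 1 + s 2 = e :=
      H932R2.sum_eq_of_homog ((mem_homogeneousSubmodule _ _).1 hF) (mem_support_iff.1 hs)
    refine Submodule.smul_mem _ _ (Submodule.subset_span
      ⟨⟨⟨s 0 + s 1, by omega⟩, ⟨s 0, by simp only; omega⟩⟩, ?_⟩)
    have h4 : ex ⟨⟨s 0 + s 1, by omega⟩, ⟨s 0, by simp only; omega⟩⟩ = s := by
      refine Finsupp.ext fun i => ?_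
      fin_cases i
      · rfl
      · change s 0 + s 1 - s 0 = s 1
        omega
      · change e - (s 0 + s 1) = s 2
        omega
    simp only
    rw [h4]
  have h5 := finrank_range_le_card (R := K) (fun x => (monomial (ex x) (1 : K)))
  rw [Set.finrank, card_tri] at h5
  have hfin : Module.Finite K ↥(Submodule.span K (Set.range fun x => (monomial (ex x) (1 : K)))) :=
    Module.Finite.span_of_finite K (Set.finite_range _)
  exact (Submodule.finrank_mono hle).trans h5

theorem finrank_of_surj {n : ℕ} {w : Fin n → ℕ} {P : Fin n → Fin 2 → K} {e : ℕ}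
    (h : Function.Surjective (ev w P e)) :
    Module.finrank K ↥(forms w P e) + ∑ i, (w i + 1).choose 2 = (e + 2).choose 2 := by
  have hfin : Module.Finite K ↥(homogeneousSubmodule (Fin 3) K e) :=
    Module.Finite.iff_fg.2 (homogeneousSubmodule_fg _ _ e)
  have hq : ∀ i, Module.Finite K (Quo K (w i)) := fun i => quo_finite (w i)
  have h1 := LinearMap.finrank_range_add_finrank_ker (ev w P e)
  have h2 : Module.finrank K ↥(forms w P e) = Module.finrank K ↥(LinearMap.ker (ev w P e)) := by
    rw [forms_eq_map]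
    exact LinearEquiv.finrank_eq (Submodule.equivSubtypeMap _ _).symm
  have h3 : Module.finrank K (∀ i, Quo K (w i)) = ∑ i, (w i + 1).choose 2 := by
    rw [Module.finrank_pi_fintype]
    exact Finset.sum_congr rfl fun i _ => finrank_quo (w i)
  rw [LinearMap.range_eq_top.2 h, finrank_top, h3, finrank_homog] at h1
  omega

theorem surj_mono {n : ℕ} {w w' : Fin n → ℕ} {P : Fin n → Fin 2 → K} {e : ℕ}
    (hw : ∀ i, w i ≤ w' i) (h : Function.Surjective (ev w' P e)) :
    Function.Surjective (ev w P e) := by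
  intro y
  choose f hf using fun i => Ideal.Quotient.mk_surjective (y i)
  obtain ⟨G, hG⟩ := h (fun i => Ideal.Quotient.mk _ (f i))
  refine ⟨G, funext fun i => ?_⟩
  have h2 := congrFun hG i
  rw [ev_apply] at h2 ⊢
  rw [← hf i, Ideal.Quotient.eq]
  exact Ideal.pow_le_pow_right (hw i) (Ideal.Quotient.eq.1 h2)

end Pool.Agent.H248R6
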