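import Mathlib
import Pool.Agent.H248R6.Main
import Pool.Agent.H248R6.ElimR
import Pool.Agent.H248R6.Spec

set_option autoImplicit false

/-!
# The universal member of a linear system with generic base points
-/

namespace Pool.Agent.H248R6

open MvPolynomial Pool.Agent.H248R5

/-- The coordinate ring of the space of `n` points. -/
abbrev PtRing (n : ℕ) := MvPolynomial (Fin n × Fin 2) ℚ

/-- Its fraction field. -/
abbrev PtField (n : ℕ) := FractionRing (PtRing n)

/-- The generic points. -/
noncomputable def gen (n : ℕ) : Fin n → Fin 2 → PtField n := fun i a =>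
  algebraMap (PtRing n) (PtField n) (X (i, a))

theorem gen_ind (n : ℕ) :
    AlgebraicIndependent ℚ (fun ij : Fin n × Fin 2 => gen n ij.1 ij.2) := by
  rw [algebraicIndependent_iff_injective_aeval]
  have h : ((aeval (fun ij : Fin n × Fin 2 => gen n ij.1 ij.2) : PtRing n →ₐ[ℚ] PtField n) :
      PtRing n →+* PtField n) = algebraMap (PtRing n) (PtField n) := by
    refine MvPolynomial.ringHom_ext (fun c => ?_) fun ij => ?_
    · exact RingHom.congr_fun (RingHom.ext_rat
        ((RingHom.comp (((aeval (fun ij : Fin n × Fin 2 => gen n ij.1 ij.2) :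
          PtRing n →ₐ[ℚ] PtField n) : PtRing n →+* PtField n)) (C : ℚ →+* PtRing n)))
        ((algebraMap (PtRing n) (PtField n)).comp (C : ℚ →+* PtRing n))) c
    · exact aeval_X _ _
  intro p q hpq
  have h2 : algebraMap (PtRing n) (PtField n) p = algebraMap (PtRing n) (PtField n) q := by
    rw [← h]
    exact hpq
  exact IsFractionRing.injective (PtRing n) (PtField n) h2

theorem exists_universal (n : ℕ) (w : Fin n → ℕ) (d : ℕ) :
    ∃ (N : ℕ) (b : Module.Basis (Fin N) (PtField n) ↥(forms w (gen n) d))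
      (β : Fin N → MvPolynomial (Fin 3) (PtRing n)),
      ∀ j, MvPolynomial.map (algebraMap (PtRing n) (PtField n)) (β j) =
        (b j : MvPolynomial (Fin 3) (PtField n)) := by
  classical
  have hfin := forms_finite w (gen n) d
  let b0 := Module.finBasis (PtField n) ↥(forms w (gen n) d)
  let _ : Algebra (MvPolynomial (Fin 3) (PtRing n)) (MvPolynomial (Fin 3) (PtField n)) :=
    MvPolynomial.algebraMvPolynomial
  obtain ⟨⟨c, hc⟩, h⟩ := IsLocalization.exist_integer_multiples
    ((nonZeroDivisors (PtRing n)).map (C (σ := Fin 3) (R := PtRing n)))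
    (S := MvPolynomial (Fin 3) (PtField n)) Finset.univ
    (fun j => (b0 j : MvPolynomial (Fin 3) (PtField n)))
  obtain ⟨s, hs, rfl⟩ := hc
  have hs0 : algebraMap (PtRing n) (PtField n) s ≠ 0 := by
    intro h0
    exact nonZeroDivisors.ne_zero hs (IsFractionRing.injective (PtRing n) (PtField n)
      (h0.trans (map_zero _).symm))
  choose β hβ using fun j => h j (Finset.mem_univ j)
  refine ⟨_, b0.isUnitSMul (w := fun _ => algebraMap (PtRing n) (PtField n) s)
    (fun _ => hs0.isUnit), β, fun j => ?_⟩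
  rw [Module.Basis.isUnitSMul_apply]
  have h1 := hβ j
  rw [MvPolynomial.algebraMap_def] at h1
  refine h1.trans ?_
  change algebraMap (MvPolynomial (Fin 3) (PtRing n)) (MvPolynomial (Fin 3) (PtField n)) (C s) *
    (b0 j : MvPolynomial (Fin 3) (PtField n)) = _
  rw [MvPolynomial.algebraMap_def, map_C, ← smul_eq_C_mul]
  rfl

/-- The universal member. -/
noncomputable def univG {n N : ℕ} (β : Fin N → MvPolynomial (Fin 3) (PtRing n)) :
    MvPolynomial (Fin 3) (MvPolynomial (Fin N) (PtRing n)) :=
  ∑ j, C (X j) * MvPolynomial.map (C : PtRing n →+* MvPolynomial (Fin N) (PtRing n)) (β j)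

/-- The product of coordinate differences. -/
noncomputable def univh (n N : ℕ) (c : Fin 3) (α : Fin n → Fin 2) :
    MvPolynomial (Fin 3) (MvPolynomial (Fin N) (PtRing n)) :=
  X c * ∏ i, (X (Fin.castSucc (α i)) - C (C (X (i, α i))) * X 2)

theorem eval_univG {n N : ℕ} (β : Fin N → MvPolynomial (Fin 3) (PtRing n)) {K : Type*} [Field K]
    (φ : MvPolynomial (Fin N) (PtRing n) →+* K) (q : Fin 3 → K) :
    eval₂ φ q (univG β) = ∑ j, φ (X j) * eval₂ (φ.comp C) q (β j) := by
  unfold univG
  rw [eval₂_sum]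
  refine Finset.sum_congr rfl fun j _ => ?_
  rw [eval₂_mul, eval₂_C, eval₂_map]

theorem eval_pderiv_univG {n N : ℕ} (β : Fin N → MvPolynomial (Fin 3) (PtRing n)) {K : Type*}
    [Field K] (φ : MvPolynomial (Fin N) (PtRing n) →+* K) (q : Fin 3 → K) (a : Fin 3) :
    eval₂ φ q (pderiv a (univG β)) = ∑ j, φ (X j) * eval₂ (φ.comp C) q (pderiv a (β j)) := by
  unfold univG
  rw [map_sum, eval₂_sum]
  refine Finset.sum_congr rfl fun j _ => ?_
  rw [pderiv_C_mul, eval₂_mul, eval₂_C, pderiv_map, eval₂_map]

end Pool.Agent.H248R6
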