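import Mathlib
import Pool.Agent.H248R6.Univ

set_option autoImplicit false

/-!
# Singular points of the universal member
-/

namespace Pool.Agent.H248R6

open MvPolynomial Pool.Agent.H248R5

/-- The values of the variables are algebraically independent over the rationals. -/
theorem vars_ind {n N : ℕ} {L : Type} [Field L] [CharZero L]
    (φ : MvPolynomial (Fin N) (PtRing n) →+* L) (hφ : Function.Injective φ) :
    AlgebraicIndependent ℚ (Sum.elim (fun j => φ (X j)) (fun ij => φ (C (X ij))) :
      Fin N ⊕ (Fin n × Fin 2) → L) := by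
  rw [algebraicIndependent_iff_injective_aeval]
  let e := sumAlgEquiv ℚ (Fin N) (Fin n × Fin 2)
  have h : ((aeval (Sum.elim (fun j => φ (X j)) (fun ij => φ (C (X ij)))) :
      MvPolynomial (Fin N ⊕ (Fin n × Fin 2)) ℚ →ₐ[ℚ] L) :
      MvPolynomial (Fin N ⊕ (Fin n × Fin 2)) ℚ →+* L) =
      φ.comp (e : MvPolynomial (Fin N ⊕ (Fin n × Fin 2)) ℚ →+*
        MvPolynomial (Fin N) (PtRing n)) := by
    refine MvPolynomial.ringHom_ext (fun c => ?_) fun x => ?_
    · exact RingHom.congr_fun (RingHom.ext_rat
        (RingHom.comp ((aeval (Sum.elim (fun j => φ (X j)) (fun ij => φ (C (X ij)))) :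
          MvPolynomial (Fin N ⊕ (Fin n × Fin 2)) ℚ →ₐ[ℚ] L) :
          MvPolynomial (Fin N ⊕ (Fin n × Fin 2)) ℚ →+* L)
          (C : ℚ →+* MvPolynomial (Fin N ⊕ (Fin n × Fin 2)) ℚ))
        ((φ.comp (e : MvPolynomial (Fin N ⊕ (Fin n × Fin 2)) ℚ →+*
          MvPolynomial (Fin N) (PtRing n))).comp
          (C : ℚ →+* MvPolynomial (Fin N ⊕ (Fin n × Fin 2)) ℚ))) c
    · rcases x with j | ij
      · refine (aeval_X _ _).trans ?_
        change φ (X j) = φ (e (X (Sum.inl j)))
        congr 1
        exact (sumAlgEquiv_X_inl ℚ (Fin N) (Fin n × Fin 2) j).symm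
      · refine (aeval_X _ _).trans ?_
        change φ (C (X ij)) = φ (e (X (Sum.inr ij)))
        congr 1
        exact (sumAlgEquiv_X_inr ℚ (Fin N) (Fin n × Fin 2) ij).symm
  intro p q hpq
  have h2 : φ (e p) = φ (e q) := by
    have h3 := RingHom.congr_fun h p
    have h4 := RingHom.congr_fun h q
    exact h3.symm.trans (hpq.trans h4)
  exact e.injective (hφ h2)

theorem kills {n : ℕ} {L : Type} [Field L] [CharZero L] (f : PtRing n →+* L)
    (D : Derivation ℚ L L) (hD : ∀ ij, D (f (X ij)) = 0) (p : PtRing n) : D (f p) = 0 := by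
  induction p using MvPolynomial.induction_on with
  | C c =>
    have h : f (C c) = algebraMap ℚ L c :=
      RingHom.congr_fun (RingHom.ext_rat (f.comp (C : ℚ →+* PtRing n)) (algebraMap ℚ L)) c
    rw [h, D.map_algebraMap]
  | add p q hp hq => rw [map_add, map_add, hp, hq, add_zero]
  | mul_X p i hp => rw [map_mul, D.leibniz, hp, hD, smul_zero, smul_zero, add_zero]

/-- The derivations dual to the coefficients, over the field of the points. -/
theorem exists_derK {n N : ℕ} {L : Type} [Field L] [CharZero L]
    (φ : MvPolynomial (Fin N) (PtRing n) →+* L) (hφ : Function.Injective φ)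
    [Algebra (PtField n) L]
    (hA : ∀ a, algebraMap (PtField n) L (algebraMap (PtRing n) (PtField n) a) = φ (C a))
    (i : Fin N) : ∃ D : Derivation (PtField n) L L, ∀ j, D (φ (X j)) = if i = j then 1 else 0 := by
  classical
  obtain ⟨D, hD⟩ := exists_der _ (vars_ind φ hφ) (Sum.inl i)
  have hx : ∀ ij, D (φ (C (X ij))) = 0 := fun ij => (hD (Sum.inr ij)).2 (by simp)
  have hA0 : ∀ a : PtRing n, D (φ (C a)) = 0 := fun a =>
    kills (φ.comp (C : PtRing n →+* MvPolynomial (Fin N) (PtRing n))) D hx a
  have hK : ∀ k : PtField n, D (algebraMap (PtField n) L k) = 0 := by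
    intro k
    obtain ⟨a, s, hs, rfl⟩ := IsFractionRing.div_surjective (A := PtRing n) k
    have hs0 : algebraMap (PtRing n) (PtField n) s ≠ 0 := by
      intro h0
      exact nonZeroDivisors.ne_zero hs (IsFractionRing.injective (PtRing n) (PtField n)
        (h0.trans (map_zero _).symm))
    have hs1 : φ (C s) ≠ 0 := by
      rw [← hA]
      exact fun h0 => hs0 ((algebraMap (PtField n) L).injective (h0.trans (map_zero _).symm))
    have h1 : algebraMap (PtField n) L (algebraMap (PtRing n) (PtField n) a /
        algebraMap (PtRing n) (PtField n) s) * φ (C s) = φ (C a) := by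
      rw [map_div₀, hA, hA, div_mul_cancel₀ _ hs1]
    have h2 := congrArg D h1
    rw [D.leibniz, hA0, hA0, smul_zero, zero_add, smul_eq_mul] at h2
    exact (mul_eq_zero.1 h2).resolve_left hs1
  let D' : L →ₗ[PtField n] L :=
    { toFun := D
      map_add' := map_add D
      map_smul' := fun k l => by
        rw [Algebra.smul_def, D.leibniz, hK, smul_zero, add_zero, smul_eq_mul,
          RingHom.id_apply, Algebra.smul_def] }
  refine ⟨Derivation.mk' D' fun a b => D.leibniz a b, fun j => ?_⟩
  change D (φ (X j)) = _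
  by_cases hij : i = j
  · subst hij
    rw [if_pos rfl]
    exact (hD (Sum.inl i)).1 rfl
  · rw [if_neg hij]
    exact (hD (Sum.inl j)).2 (fun h => hij (Sum.inl.inj h))

/-- The product of coordinate differences vanishes at the singular points of the universal
member. -/
theorem sing_aux {n e N : ℕ} {w : Fin n → ℕ}
    (b : Module.Basis (Fin N) (PtField n) ↥(forms w (gen n) (e + 1)))
    (β : Fin N → MvPolynomial (Fin 3) (PtRing n))
    (hβ : ∀ j, MvPolynomial.map (algebraMap (PtRing n) (PtField n)) (β j) =
      (b j : MvPolynomial (Fin 3) (PtField n))) (c : Fin 3) (α : Fin n → Fin 2)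
    (L : Type) [Field L] [CharZero L] [Algebra (PtField n) L]
    (φ : MvPolynomial (Fin N) (PtRing n) →+* L)
    (hφ : Function.Injective φ)
    (hA : ∀ a, algebraMap (PtField n) L (algebraMap (PtRing n) (PtField n) a) = φ (C a))
    (hdim : Module.finrank L ↥(forms w (fun i a => algebraMap (PtField n) L (gen n i a))
      (e + 1)) = N)
    (g1 : ∀ k, Function.Surjective (ev (Function.update w k (w k + 1))
      (fun i a => algebraMap (PtField n) L (gen n i a)) (e + 1)))
    (g2 : Function.Surjective (ev w (fun i a => algebraMap (PtField n) L (gen n i a)) (e + 1)))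
    (g3 : Function.Surjective
      (ev (fun i => w i - 1) (fun i a => algebraMap (PtField n) L (gen n i a)) e))
    (q : Fin 3 → L) (h1 : eval₂ φ q (univG β) = 0)
    (h2 : ∀ a, eval₂ φ q (pderiv a (univG β)) = 0) : eval₂ φ q (univh n N c α) = 0 := by
  classical
  choose D hD using exists_derK φ hφ hA
  have hcomp : φ.comp (C : PtRing n →+* MvPolynomial (Fin N) (PtRing n)) =
      (algebraMap (PtField n) L).comp (algebraMap (PtRing n) (PtField n)) :=
    RingHom.ext fun a => (hA a).symm
  have hev : ∀ p : MvPolynomial (Fin 3) (PtRing n),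
      eval₂ (φ.comp (C : PtRing n →+* MvPolynomial (Fin N) (PtRing n))) q p =
      aeval q (MvPolynomial.map (algebraMap (PtRing n) (PtField n)) p) := by
    intro p
    rw [aeval_def, eval₂_map, hcomp]
  rw [eval_univG] at h1
  by_contra hne
  have hval : eval₂ φ q (univh n N c α) = q c * ∏ i, (q (Fin.castSucc (α i)) -
      algebraMap (PtField n) L (gen n i (α i)) * q 2) := by
    unfold univh
    have := map_mul (eval₂Hom φ q) (X c) (∏ i, (X (Fin.castSucc (α i)) - C (C (X (i, α i))) * X 2))
    rw [map_prod] at this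
    refine this.trans ?_
    congr 1
    · exact eval₂_X _ _ _
    · refine Finset.prod_congr rfl fun i _ => ?_
      rw [map_sub, map_mul]
      have a1 : (eval₂Hom φ q) (X (Fin.castSucc (α i))) = q (Fin.castSucc (α i)) :=
        eval₂_X _ _ _
      have a2 : (eval₂Hom φ q) (X 2) = q 2 := eval₂_X _ _ _
      have a3 : (eval₂Hom φ q) (C (C (X (i, α i)))) =
          algebraMap (PtField n) L (gen n i (α i)) := (eval₂_C _ _ _).trans (hA _).symm
      rw [a1, a2, a3]
  rw [hval] at hne
  have hne1 := left_ne_zero_of_mul hne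
  have hne2 := fun i => Finset.prod_ne_zero_iff.1 (right_ne_zero_of_mul hne) i
    (Finset.mem_univ i)
  have k1 : ∑ j, φ (X j) * aeval q (b j : MvPolynomial (Fin 3) (PtField n)) = 0 := by
    rw [← h1]
    exact Finset.sum_congr rfl fun j _ => by rw [hev, hβ]
  have k2 : ∀ a, ∑ j, φ (X j) * aeval q (pderiv a (b j : MvPolynomial (Fin 3) (PtField n))) =
      0 := by
    intro a
    have h3 := h2 a
    rw [eval_pderiv_univG] at h3
    rw [← h3]
    exact Finset.sum_congr rfl fun j _ => by rw [hev, ← pderiv_map, hβ]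
  have k3 : q ≠ 0 := fun h => hne1 (by rw [h]; rfl)
  refine at_point (gen_ind n) b hdim g2 g1 g3 (fun j => φ (X j)) D hD q k3 (fun i => ?_) k1 k2
  rintro ⟨s, hs⟩
  apply hne2 i
  rw [hs]
  generalize α i = a
  fin_cases a
  · simp
    ring
  · simp
    ring

end Pool.Agent.H248R6
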