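import Mathlib
import Pool.Agent.H248R6.Gpt
import Pool.Agent.H248R6.Dim
import Pool.Agent.H248R6.Assemble

set_option autoImplicit false

/-!
# From generic points to general points
-/

namespace Pool.Agent.H248R6

open MvPolynomial Pool.Agent.H248R5

/-- Smoothness of the general member for all points outside a hypersurface. -/
theorem open_main {K : Type} [Field K] [CharZero K] {n e : ℕ} {w : Fin n → ℕ}
    (hgen : ∀ (L : Type) [Field L] [CharZero L] (P : Fin n → Fin 2 → L),
      AlgebraicIndependent ℚ (fun ij : Fin n × Fin 2 => P ij.1 ij.2) →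
      (∀ k, Function.Surjective (ev (Function.update w k (w k + 1)) P (e + 1))) ∧
      Function.Surjective (ev w P (e + 1)) ∧ Function.Surjective (ev (fun i => w i - 1) P e))
    (hopen : ∃ F : MvPolynomial (Fin n × Fin 2) ℚ, F ≠ 0 ∧ ∀ P : Fin n → Fin 2 → K,
      aeval (fun ij : Fin n × Fin 2 => P ij.1 ij.2) F ≠ 0 →
      (∀ k, Function.Surjective (ev (Function.update w k (w k + 1)) P (e + 1))) ∧
      Function.Surjective (ev w P (e + 1))) :
    ∃ F : MvPolynomial (Fin n × Fin 2) ℚ, F ≠ 0 ∧ ∀ P : Fin n → Fin 2 → K,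
      aeval (fun ij : Fin n × Fin 2 => P ij.1 ij.2) F ≠ 0 →
      Module.finrank K ↥(forms w P (e + 1)) + ∑ i, (w i + 1).choose 2 = (e + 3).choose 2 ∧
        GeneralMember (forms w P (e + 1)) (SmoothMember w P) := by
  classical
  obtain ⟨F2, hF2, hF2'⟩ := hopen
  obtain ⟨N, b, β, hβ⟩ := exists_universal n w (e + 1)
  -- elimination
  have hel := fun cα : Fin 3 × (Fin n → Fin 2) =>
    elimR (univG β) (univh n N cα.1 cα.2) (by
      intro L _ φ hφ q h1 h2
      have hchar : CharZero L := charZero_of_injective_ringHom hφ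
      have hφA : Function.Injective
        (φ.comp (C : PtRing n →+* MvPolynomial (Fin N) (PtRing n))) :=
        hφ.comp (C_injective _ _)
      let _ : Algebra (PtField n) L := (IsFractionRing.lift hφA).toAlgebra
      have hA : ∀ a, algebraMap (PtField n) L (algebraMap (PtRing n) (PtField n) a) = φ (C a) :=
        fun a => IsFractionRing.lift_algebraMap hφA a
      have hPL : AlgebraicIndependent ℚ
          (fun ij : Fin n × Fin 2 =>
            (fun i a => algebraMap (PtField n) L (gen n i a)) ij.1 ij.2) := by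
        have h3 := (vars_ind φ hφ).comp Sum.inr Sum.inr_injective
        have h4 : (fun ij : Fin n × Fin 2 =>
            (fun i a => algebraMap (PtField n) L (gen n i a)) ij.1 ij.2) =
            (Sum.elim (fun j => φ (X j)) (fun ij => φ (C (X ij))) :
              Fin N ⊕ (Fin n × Fin 2) → L) ∘ Sum.inr := by
          funext ij
          exact hA _
        rw [h4]
        exact h3
      obtain ⟨g1, g2, g3⟩ := hgen L (fun i a => algebraMap (PtField n) L (gen n i a)) hPL
      obtain ⟨-, g2', -⟩ := hgen (PtField n) (gen n) (gen_ind n)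
      have hN : Module.finrank (PtField n) ↥(forms w (gen n) (e + 1)) = N := by
        rw [Module.finrank_eq_card_basis b, Fintype.card_fin]
      have hdim : Module.finrank L ↥(forms w (fun i a => algebraMap (PtField n) L (gen n i a))
          (e + 1)) = N := by
        have e1 := finrank_of_surj g2
        have e2 := finrank_of_surj g2'
        omega
      exact sing_aux b β hβ cα.1 cα.2 L φ hφ hA hdim g1 g2 g3 q h1 h2)
  choose s hs0 hs using hel
  have hS0 : (∏ cα, s cα) ≠ 0 := Finset.prod_ne_zero_iff.2 fun i _ => hs0 i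
  obtain ⟨μ, hμ⟩ : ∃ μ, coeff μ (∏ cα, s cα) ≠ 0 := by
    by_contra hcon
    push Not at hcon
    exact hS0 (MvPolynomial.ext _ _ fun μ => by rw [hcon μ, coeff_zero])
  -- a nonzero minor
  have hli0 : LinearIndependent (PtField n) (fun j => (b j : MvPolynomial (Fin 3) (PtField n))) :=
    b.linearIndependent.map' (Submodule.subtype _) (Submodule.ker_subtype _)
  obtain ⟨ν, hν⟩ := exists_minor _ hli0
  set F1 : PtRing n := Matrix.det (Matrix.of fun i j => coeff (ν i) (β j)) with hF1
  have hF10 : F1 ≠ 0 := by
    intro h0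
    apply hν
    have h1 := congrArg (algebraMap (PtRing n) (PtField n)) h0
    rw [hF1, RingHom.map_det, map_zero] at h1
    rw [← h1]
    congr 1
    ext i j
    rw [RingHom.mapMatrix_apply, Matrix.map_apply, Matrix.of_apply, Matrix.of_apply, ← hβ,
      coeff_map]
  refine ⟨F1 * F2 * coeff μ (∏ cα, s cα), mul_ne_zero (mul_ne_zero hF10 hF2) hμ, fun P hP => ?_⟩
  rw [map_mul, map_mul] at hP
  have hP1 := left_ne_zero_of_mul (left_ne_zero_of_mul hP)
  have hP2 := right_ne_zero_of_mul (left_ne_zero_of_mul hP)
  have hP3 := right_ne_zero_of_mul hP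
  obtain ⟨g1, g2⟩ := hF2' P hP2
  have hfr := finrank_of_surj g2
  refine ⟨hfr, ?_⟩
  let f : PtRing n →+* K :=
    ((aeval (fun ij : Fin n × Fin 2 => P ij.1 ij.2) : PtRing n →ₐ[ℚ] K) : PtRing n →+* K)
  have hfX : ∀ i a, f (X (i, a)) = P i a := fun i a => aeval_X _ _
  have hfP : (fun i a => f (X (i, a))) = P := by
    funext i a
    exact hfX i a
  have hmem : ∀ j, MvPolynomial.map f (β j) ∈ forms w P (e + 1) := by
    intro j
    have h1 : MvPolynomial.map (algebraMap (PtRing n) (PtField n)) (β j) ∈
        forms w (fun i a => algebraMap (PtRing n) (PtField n) (X (i, a))) (e + 1) := by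
      rw [hβ]
      exact (b j).2
    have h2 := spec_mem (x := fun i a => X (i, a)) (IsFractionRing.injective (PtRing n)
      (PtField n)) f h1
    rwa [hfP] at h2
  have hli : LinearIndependent K (fun j => MvPolynomial.map f (β j)) := by
    refine li_of_minor _ ν ?_
    have h1 : Matrix.det (Matrix.of fun i j => coeff (ν i) (MvPolynomial.map f (β j))) = f F1 := by
      rw [hF1, RingHom.map_det]
      congr 1
    rw [h1]
    exact hP1
  have hfin := forms_finite w P (e + 1)
  have hli2 : LinearIndependent K (fun j => (⟨MvPolynomial.map f (β j), hmem j⟩ :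
      ↥(forms w P (e + 1)))) := LinearIndependent.of_comp (Submodule.subtype _) hli
  obtain ⟨-, g2', -⟩ := hgen (PtField n) (gen n) (gen_ind n)
  have hNK : Fintype.card (Fin N) = Module.finrank K ↥(forms w P (e + 1)) := by
    have e2 := finrank_of_surj g2'
    have hN : Module.finrank (PtField n) ↥(forms w (gen n) (e + 1)) = N := by
      rw [Module.finrank_eq_card_basis b, Fintype.card_fin]
    rw [Fintype.card_fin]
    omega
  let γ : Module.Basis (Fin N) K ↥(forms w P (e + 1)) :=
    Module.Basis.mk hli2 (hli2.span_eq_top_of_card_eq_finrank' hNK).ge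
  have hγ : ∀ j, (γ j : MvPolynomial (Fin 3) K) = MvPolynomial.map f (β j) := by
    intro j
    change ((Module.Basis.mk hli2 _ j : ↥(forms w P (e + 1))) : MvPolynomial (Fin 3) K) = _
    rw [Module.Basis.mk_apply]
  refine assemble g1 (general_of_basis γ ?_)
  refine ⟨MvPolynomial.map f (∏ cα, s cα), fun h0 => hP3 ?_, fun t ht => ?_⟩
  · have h1 := congrArg (coeff μ) h0
    rw [coeff_map, coeff_zero] at h1
    exact h1
  · intro Q hQ hQ1 hQ2
    let ψ : MvPolynomial (Fin N) (PtRing n) →+* K := eval₂Hom f t
    have hψC : ψ.comp (C : PtRing n →+* MvPolynomial (Fin N) (PtRing n)) = f :=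
      RingHom.ext fun a => eval₂_C _ _ _
    have hψX : ∀ j, ψ (X j) = t j := fun j => eval₂_X _ _ _
    have hψs : ∀ cα, ψ (s cα) ≠ 0 := by
      intro cα
      rw [eval_map] at ht
      have h1 : ψ (∏ cα, s cα) ≠ 0 := ht
      rw [map_prod] at h1
      exact Finset.prod_ne_zero_iff.1 h1 cα (Finset.mem_univ cα)
    have hv1 : eval₂ ψ Q (univG β) = 0 := by
      rw [eval_univG, hψC, ← hQ1, map_sum]
      refine Finset.sum_congr rfl fun j _ => ?_
      rw [hψX, smul_eval, hγ, eval_map]
    have hv2 : ∀ a, eval₂ ψ Q (pderiv a (univG β)) = 0 := by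
      intro a
      rw [eval_pderiv_univG, hψC, ← hQ2 a, map_sum, map_sum]
      refine Finset.sum_congr rfl fun j _ => ?_
      rw [hψX, Derivation.map_smul, smul_eval, hγ, pderiv_map, eval_map]
    by_contra hcon
    push Not at hcon
    obtain ⟨c, hc⟩ : ∃ c, Q c ≠ 0 := by
      by_contra hcon2
      push Not at hcon2
      exact hQ (funext hcon2)
    have hα : ∀ i, ∃ a : Fin 2, Q (Fin.castSucc a) - P i a * Q 2 ≠ 0 := by
      intro i
      by_contra hcon2
      push Not at hcon2
      apply hcon i (Q 2)
      have e0 := hcon2 0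
      have e1 := hcon2 1
      funext j
      fin_cases j
      · change Q 0 = Q 2 * P i 0
        have : Q (Fin.castSucc (0 : Fin 2)) = Q 0 := rfl
        rw [this] at e0
        linear_combination e0
      · change Q 1 = Q 2 * P i 1
        have : Q (Fin.castSucc (1 : Fin 2)) = Q 1 := rfl
        rw [this] at e1
        linear_combination e1
      · change Q 2 = Q 2 * 1
        rw [mul_one]
    choose α hα using hα
    have h3 := hs (c, α) K ψ (hψs (c, α)) Q hv1 hv2
    have hval : eval₂ ψ Q (univh n N c α) = Q c * ∏ i, (Q (Fin.castSucc (α i)) -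
        P i (α i) * Q 2) := by
      unfold univh
      have := map_mul (eval₂Hom ψ Q) (X c)
        (∏ i, (X (Fin.castSucc (α i)) - C (C (X (i, α i))) * X 2))
      rw [map_prod] at this
      refine this.trans ?_
      congr 1
      · exact eval₂_X _ _ _
      · refine Finset.prod_congr rfl fun i _ => ?_
        rw [map_sub, map_mul]
        have a1 : (eval₂Hom ψ Q) (X (Fin.castSucc (α i))) = Q (Fin.castSucc (α i)) :=
          eval₂_X _ _ _
        have a2 : (eval₂Hom ψ Q) (X 2) = Q 2 := eval₂_X _ _ _
        have a3 : (eval₂Hom ψ Q) (C (C (X (i, α i)))) = P i (α i) := by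
          refine (eval₂_C _ _ _).trans ?_
          have a4 : ψ (C (X (i, α i))) = f (X (i, α i)) := eval₂_C _ _ _
          rw [a4, hfX]
        rw [a1, a2, a3]
    rw [hval] at h3
    rcases mul_eq_zero.1 h3 with h4 | h4
    · exact hc h4
    · obtain ⟨i, _, hi⟩ := Finset.prod_eq_zero_iff.1 h4
      exact hα i hi

end Pool.Agent.H248R6
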