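import Mathlib
import Pool.Agent.H248R6.Open
import Pool.Agent.H248R6.Uni
import Pool.Agent.H248R6.Win

set_option autoImplicit false

/-!
# One hypersurface for all degrees and all multiplicities below the bound
-/

namespace Pool.Agent.H248R6

open MvPolynomial Pool.Agent.H248R5

theorem inj_of_disc' {K : Type} [Field K] [CharZero K] {n : ℕ} {P : Fin n → Fin 2 → K}
    (h : aeval (fun ij : Fin n × Fin 2 => P ij.1 ij.2) (disc ℚ n) ≠ 0) :
    Function.Injective P := by
  refine inj_of_disc (K := K) (P := P) ?_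
  have h1 : MvPolynomial.map (algebraMap ℚ K) (disc ℚ n) = disc K n := by
    classical
    unfold disc
    rw [map_prod]
    refine Finset.prod_congr rfl fun i _ => ?_
    rw [map_prod]
    refine Finset.prod_congr rfl fun j _ => ?_
    split_ifs
    · exact map_one _
    · rw [map_sub, map_X, map_X]
  rw [← h1, eval_map]
  exact h

theorem open_all {K : Type} [Field K] [CharZero K] {n M : ℕ} (hn : 0 < n) (good : ℕ → Prop)
    (D0 : ℕ)
    (h1 : ∀ e, good (e + 1) → ∀ (L : Type) [Field L] [CharZero L] (P : Fin n → Fin 2 → L),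
      AlgebraicIndependent ℚ (fun ij : Fin n × Fin 2 => P ij.1 ij.2) →
      (∀ k, Function.Surjective (ev (Function.update (fun _ => M) k (M + 1)) P (e + 1))) ∧
      Function.Surjective (ev (fun _ => M - 1) P e))
    (h2 : ∃ F : MvPolynomial (Fin n × Fin 2) ℚ, F ≠ 0 ∧ ∀ P : Fin n → Fin 2 → K,
      aeval (fun ij : Fin n × Fin 2 => P ij.1 ij.2) F ≠ 0 → ∀ e, good (e + 1) → ∀ k,
        Function.Surjective (ev (Function.update (fun _ => M) k (M + 1)) P (e + 1)))
    (h3 : ∃ F : MvPolynomial (Fin n × Fin 2) ℚ, F ≠ 0 ∧ ∀ P : Fin n → Fin 2 → K,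
      aeval (fun ij : Fin n × Fin 2 => P ij.1 ij.2) F ≠ 0 → ∀ d, D0 ≤ d →
        Function.Surjective (ev (fun _ => M) P d)) :
    ∃ F : MvPolynomial (Fin n × Fin 2) ℚ, F ≠ 0 ∧ ∀ P : Fin n → Fin 2 → K,
      aeval (fun ij : Fin n × Fin 2 => P ij.1 ij.2) F ≠ 0 →
      ∀ w : Fin n → ℕ, (∀ i, w i ≤ M) → ∀ e, (good (e + 1) ∨ D0 ≤ e) →
        Module.finrank K ↥(forms w P (e + 1)) + ∑ i, (w i + 1).choose 2 = (e + 3).choose 2 ∧
          GeneralMember (forms w P (e + 1)) (SmoothMember w P) := by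
  classical
  obtain ⟨F2, hF2, hF2'⟩ := h2
  obtain ⟨F3, hF3, hF3'⟩ := h3
  have hup : ∀ {L : Type} [Field L] {P : Fin n → Fin 2 → L} {w : Fin n → ℕ} {e : ℕ},
      (∀ i, w i ≤ M) →
      (∀ k, Function.Surjective (ev (Function.update (fun _ => M) k (M + 1)) P (e + 1))) →
      (∀ k, Function.Surjective (ev (Function.update w k (w k + 1)) P (e + 1))) ∧
      Function.Surjective (ev w P (e + 1)) := by
    intro L _ P w e hw hs
    have h4 : ∀ k, Function.Surjective (ev (Function.update w k (w k + 1)) P (e + 1)) := by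
      intro k
      refine surj_mono (fun i => ?_) (hs k)
      by_cases hi : i = k
      · subst hi
        rw [Function.update_self, Function.update_self]
        have := hw i
        omega
      · rw [Function.update_of_ne hi, Function.update_of_ne hi]
        exact hw i
    refine ⟨h4, surj_mono (fun i => ?_) (h4 ⟨0, hn⟩)⟩
    by_cases hi : i = ⟨0, hn⟩
    · subst hi
      rw [Function.update_self]
      omega
    · rw [Function.update_of_ne hi]
  have key : ∀ x : (Fin n → Fin (M + 1)) × Fin D0, ∃ F : MvPolynomial (Fin n × Fin 2) ℚ,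
      F ≠ 0 ∧ (good ((x.2 : ℕ) + 1) → ∀ P : Fin n → Fin 2 → K,
        aeval (fun ij : Fin n × Fin 2 => P ij.1 ij.2) F ≠ 0 →
        Module.finrank K ↥(forms (fun i => (x.1 i : ℕ)) P ((x.2 : ℕ) + 1)) +
            ∑ i, ((x.1 i : ℕ) + 1).choose 2 = ((x.2 : ℕ) + 3).choose 2 ∧
          GeneralMember (forms (fun i => (x.1 i : ℕ)) P ((x.2 : ℕ) + 1))
            (SmoothMember (fun i => (x.1 i : ℕ)) P)) := by
    intro x
    by_cases hx : good ((x.2 : ℕ) + 1)
    · have hw : ∀ i, (fun i => (x.1 i : ℕ)) i ≤ M := fun i => by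
        have := (x.1 i).2
        simp only
        omega
      obtain ⟨F, hF, hF'⟩ := open_main (K := K) (n := n) (e := (x.2 : ℕ))
        (w := fun i => (x.1 i : ℕ))
        (fun L _ _ P hP => by
          obtain ⟨a1, a2⟩ := h1 _ hx L P hP
          obtain ⟨b1, b2⟩ := hup hw a1
          refine ⟨b1, b2, surj_mono (fun i => ?_) a2⟩
          exact Nat.sub_le_sub_right (hw i) 1)
        ⟨F2, hF2, fun P hP => hup hw (hF2' P hP _ hx)⟩
      exact ⟨F, hF, fun _ => hF'⟩
    · exact ⟨1, one_ne_zero, fun h => absurd h hx⟩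
  choose G hG hG' using key
  refine ⟨F2 * F3 * disc ℚ n * ∏ x, G x, mul_ne_zero (mul_ne_zero (mul_ne_zero hF2 hF3)
    (disc_ne ℚ n)) (Finset.prod_ne_zero_iff.2 fun x _ => hG x), fun P hP w hw e he => ?_⟩
  rw [map_mul, map_mul, map_mul, map_prod] at hP
  have hP2 := left_ne_zero_of_mul (left_ne_zero_of_mul (left_ne_zero_of_mul hP))
  have hP3 := right_ne_zero_of_mul (left_ne_zero_of_mul (left_ne_zero_of_mul hP))
  have hPd := inj_of_disc' (right_ne_zero_of_mul (left_ne_zero_of_mul hP))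
  rcases Nat.lt_or_ge e D0 with h0 | h0
  · have hg : good (e + 1) := he.resolve_right (by omega)
    let u : Fin n → Fin (M + 1) := fun i => ⟨w i, Nat.lt_succ_of_le (hw i)⟩
    have hx := Finset.prod_ne_zero_iff.1 (right_ne_zero_of_mul hP) (u, (⟨e, h0⟩ : Fin D0))
      (Finset.mem_univ _)
    have h5 := hG' (u, (⟨e, h0⟩ : Fin D0)) hg P hx
    have hu : (fun i => (u i : ℕ)) = w := rfl
    simp only [hu] at h5
    exact h5
  · have a1 := surj_mono (w := w) hw (hF3' P hP3 e h0)
    have a2 := surj_mono (w := w) hw (hF3' P hP3 (e + 1) (by omega))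
    exact ⟨finrank_of_surj a2, general_smooth hPd (finrank_of_surj a1).le⟩

end Pool.Agent.H248R6
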